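import Pool.Agent.H67.ENG.Main

set_option autoImplicit false

/-!
# A lower bound for the nilpotency index of `m`-generated `(p-1)`-Engel Lie algebras

`N_F(m,p) ≥ (p-3)(m-1) + 2` for all primes `p ≥ 5`, all fields `F` of characteristic `p`, all `m ≥ 1`.
-/

namespace Pool.H67.ENG

open MvPolynomial

section Chain

variable {F : Type*} [Field F] {m : ℕ} [NeZero m]

/-- the images of the generators -/
noncomputable def gen (F : Type*) [Field F] (m : ℕ) (i : Fin m) : K3 (DD F m) :=
  ⟨mk (DD F m) (X (i, 0)), by rw [mem_K3, out_mk, DD_a, DD_b, DD_c]⟩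

/-- the homomorphism from the free Lie algebra -/
noncomputable def phi (F : Type*) [Field F] (m : ℕ) :
    FreeLieAlgebra F (Fin m) →ₗ⁅F⁆ K3 (DD F m) := FreeLieAlgebra.lift F (gen F m)

lemma phi_of (i : Fin m) : phi F m (FreeLieAlgebra.of F i) = gen F m i := by
  simp [phi]

lemma phi_iter (u w : FreeLieAlgebra F (Fin m)) (n : ℕ) :
    phi F m ((fun z => ⁅z, u⁆)^[n] w) = (fun z => ⁅z, phi F m u⁆)^[n] (phi F m w) := by
  induction n with
  | zero => rfl
  | succ n ih =>
    rw [Function.iterate_succ', Function.comp_apply, LieHom.map_lie, ih,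
      Function.iterate_succ', Function.comp_apply]

/-- the `n`-th generator -/
def ee (m : ℕ) [NeZero m] (n : ℕ) : Fin m := Fin.ofNat m n

lemma ee_val {n : ℕ} (hn : n < m) : (ee m n).val = n := by
  simp [ee, Fin.ofNat, Nat.mod_eq_of_lt hn]

/-- the long product `[x₀, x₁, .., x₁, x₂, .., x₂, ..]` -/
noncomputable def chain (F : Type*) [Field F] (m : ℕ) [NeZero m] (r : ℕ) :
    ℕ → FreeLieAlgebra F (Fin m)
  | 0 => FreeLieAlgebra.of F (ee m 0)
  | n + 1 => (fun z => ⁅z, FreeLieAlgebra.of F (ee m (n + 1))⁆)^[r] (chain F m r n)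

lemma lcs_iter {u w : FreeLieAlgebra F (Fin m)} {k : ℕ}
    (hw : w ∈ LieModule.lowerCentralSeries F (FreeLieAlgebra F (Fin m))
      (FreeLieAlgebra F (Fin m)) k) (n : ℕ) :
    (fun z => ⁅z, u⁆)^[n] w ∈ LieModule.lowerCentralSeries F (FreeLieAlgebra F (Fin m))
      (FreeLieAlgebra F (Fin m)) (k + n) := by
  induction n with
  | zero => exact hw
  | succ n ih =>
    rw [Function.iterate_succ', Function.comp_apply, ← add_assoc,
      LieModule.lowerCentralSeries_succ, ← lie_skew]
    exact neg_mem (LieSubmodule.lie_mem_lie (LieSubmodule.mem_top _) ih)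

lemma chain_lcs (r n : ℕ) :
    chain F m r n ∈ LieModule.lowerCentralSeries F (FreeLieAlgebra F (Fin m))
      (FreeLieAlgebra F (Fin m)) (r * n) := by
  induction n with
  | zero => simp
  | succ n ih =>
    rw [chain, Nat.mul_succ]
    exact lcs_iter ih r

lemma val_chain_succ (r n : ℕ) :
    val (DD F m) (phi F m (chain F m r (n + 1))) =
      (R (DD F m) (X (ee m (n + 1), 0)))^[r] (val (DD F m) (phi F m (chain F m r n))) := by
  rw [chain, phi_iter, val_iter, phi_of]; rfl

lemma chain_free (r : ℕ) (i : Fin m) (n : ℕ) (hn : n < i.val) :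
    FreeOf i (val (DD F m) (phi F m (chain F m r n))) := by
  have him := i.isLt
  induction n with
  | zero =>
    rw [chain, phi_of]
    change FreeOf i (X (ee m 0, 0) : NN F m)
    refine free_X (fun h => ?_) 0
    have h1 := congrArg Fin.val h
    rw [ee_val (by omega)] at h1
    omega
  | succ n ih =>
    rw [val_chain_succ]
    refine free_R_iter (free_X (fun h => ?_) 0) (ih (by omega)) r
    have h1 := congrArg Fin.val h
    rw [ee_val (by omega)] at h1
    omega

lemma chain_ne {p : ℕ} [Fact p.Prime] [CharP F p] {g : ℕ} (hg : p = 2 * g + 5) {t : F}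
    (ht : (3 : F) * t = 1) (n : ℕ) (hn : n < m) (c : NN F m) :
    DD F m (DD F m (val (DD F m) (phi F m (chain F m (2 * g + 2) n)))) ≠
      DD F m (DD F m (DD F m c)) := by
  induction n generalizing c with
  | zero =>
    rw [chain, phi_of]
    exact base (ee m 0) c
  | succ n ih =>
    intro h
    rw [val_chain_succ] at h
    have h1 := congrArg ((Lap (ee m (n + 1)))^[g + 1]) h
    rw [Lap_iter_D, Lap_iter_D, Lap_iter_D, Lap_iter_D, Lap_iter_D] at h1
    have hfree : FreeOf (ee m (n + 1)) (val (DD F m) (phi F m (chain F m (2 * g + 2) n))) := by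
      apply chain_free
      rw [ee_val hn]; omega
    rw [block ht hfree (val_d3 _ _) g, C_mul', Derivation.map_smul, Derivation.map_smul] at h1
    have hl := lam_ne (p := p) hg ht
    apply ih (by omega) ((lam t g)⁻¹ • (Lap (ee m (n + 1)))^[g + 1] c)
    rw [Derivation.map_smul, Derivation.map_smul, Derivation.map_smul, ← h1, smul_smul,
      inv_mul_cancel₀ hl, one_smul]

end Chain

/-- the bound -/
theorem lower_bound (p : ℕ) (hp : p.Prime) (h5 : 5 ≤ p) (F : Type*) [Field F] [CharP F p]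
    (m : ℕ) (hm : 1 ≤ m) (N : ℕ)
    (h : LieModule.lowerCentralSeries F (FreeLieAlgebra F (Fin m))
        (FreeLieAlgebra F (Fin m)) (N - 1) ≤
      LieSubmodule.lieSpan F (FreeLieAlgebra F (Fin m))
        {z : FreeLieAlgebra F (Fin m) | ∃ u v : FreeLieAlgebra F (Fin m),
          z = (fun w => ⁅w, u⁆)^[p - 1] v}) :
    (p - 3) * (m - 1) + 2 ≤ N := by
  haveI : Fact p.Prime := ⟨hp⟩
  haveI : NeZero m := ⟨by omega⟩
  obtain ⟨g, hg⟩ : ∃ g, p = 2 * g + 5 := by
    have hodd := hp.eq_two_or_odd'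
    rcases hodd with h2 | h2
    · omega
    · obtain ⟨k, hk⟩ := h2
      exact ⟨k - 2, by omega⟩
  have h3 : (3 : F) ≠ 0 := by
    intro h
    have h4 : ((3 : ℕ) : F) = 0 := by exact_mod_cast h
    rw [CharP.cast_eq_zero_iff F p] at h4
    have := Nat.le_of_dvd (by norm_num) h4
    omega
  set t : F := (3 : F)⁻¹ with htdef
  have ht : (3 : F) * t = 1 := mul_inv_cancel₀ h3
  by_contra hN
  rw [not_le] at hN
  have hle : N - 1 ≤ (p - 3) * (m - 1) := by omega
  have hmem : chain F m (2 * g + 2) (m - 1) ∈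
      LieSubmodule.lieSpan F (FreeLieAlgebra F (Fin m))
        {z : FreeLieAlgebra F (Fin m) | ∃ u v : FreeLieAlgebra F (Fin m),
          z = (fun w => ⁅w, u⁆)^[p - 1] v} := by
    apply h
    apply LieModule.antitone_lowerCentralSeries F _ _ hle
    have := chain_lcs (F := F) (m := m) (2 * g + 2) (m - 1)
    rwa [show 2 * g + 2 = p - 3 by omega] at this ⊢
  have hJ : LieSubmodule.lieSpan F (FreeLieAlgebra F (Fin m))
        {z : FreeLieAlgebra F (Fin m) | ∃ u v : FreeLieAlgebra F (Fin m),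
          z = (fun w => ⁅w, u⁆)^[p - 1] v} ≤ (J (DD F m) t ht).comap (phi F m) := by
    rw [LieSubmodule.lieSpan_le]
    rintro z ⟨u, v, rfl⟩
    change (phi F m _) ∈ J (DD F m) t ht
    rw [phi_iter]
    exact engel_mem (DD F m) (p := p) hg t ht _ _
  have h6 : phi F m (chain F m (2 * g + 2) (m - 1)) ∈ J (DD F m) t ht := hJ hmem
  rw [mem_J] at h6
  obtain ⟨c, hc⟩ := h6
  exact chain_ne (p := p) hg ht (m - 1) (by omega) c hc

end Pool.H67.ENG

namespace Pool.Agent.Results.MP_4c85e1_al.LinearLowerBound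

/-- For every prime `p ≥ 5`, every field `F` of characteristic `p` and every `m ≥ 1`: if all products
of `N` elements of the `m`-generated `(p-1)`-Engel Lie algebra over `F` vanish, then
`N ≥ (p-3)(m-1) + 2`. -/
theorem result (p : ℕ) (hp : p.Prime) (h5 : 5 ≤ p) (F : Type*) [Field F] [CharP F p]
    (m : ℕ) (hm : 1 ≤ m) (N : ℕ)
    (h : LieModule.lowerCentralSeries F (FreeLieAlgebra F (Fin m))
        (FreeLieAlgebra F (Fin m)) (N - 1) ≤
      LieSubmodule.lieSpan F (FreeLieAlgebra F (Fin m))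
        {z : FreeLieAlgebra F (Fin m) | ∃ u v : FreeLieAlgebra F (Fin m),
          z = (fun w => ⁅w, u⁆)^[p - 1] v}) :
    (p - 3) * (m - 1) + 2 ≤ N :=
  Pool.H67.ENG.lower_bound p hp h5 F m hm N h

end Pool.Agent.Results.MP_4c85e1_al.LinearLowerBound
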